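import Pool.Agent.Q202.TT.Norm
import Pool.Agent.H100R3.TTO2

set_option autoImplicit false
set_option linter.unusedSectionVars false

/-! # The dimension count -/

namespace Pool.Agent.Q202.TT

open Matrix Complex Module Set
open Pool.Agent.H100R3.TTO (CD aeval_conj)

variable {n : ℕ}

/-- the parameter space -/
abbrev Par (n : ℕ) : Type := (Fin n → ℝ) × (Fin n → ℝ) × (Fin n → ℂ) × (Fin n → ℂ) × ℝ

/-- ordered pairs of distinct indices -/
def prs (n : ℕ) : Finset (Fin n × Fin n) := Finset.univ.filter fun p => p.1 ≠ p.2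

/-- smooth form of the normal form -/
noncomputable def BS (θ : Par n) : Matrix (Fin n) (Fin n) ℂ :=
  Matrix.of fun i j => if i = j then θ.2.2.2.1 i else
    (θ.2.2.1 i * ((θ.2.1 j : ℝ) : ℂ) - ((θ.2.1 i : ℝ) : ℂ) * θ.2.2.1 j) *
      (((θ.2.2.2.2 * ∏ p ∈ (prs n).erase (i, j), (θ.1 p.1 - θ.1 p.2)) : ℝ) : ℂ)

theorem BS_eq {ξ κ : Fin n → ℝ} {a d : Fin n → ℂ} (hξ : Function.Injective ξ) :
    BS (ξ, κ, a, d, (∏ p ∈ prs n, (ξ p.1 - ξ p.2))⁻¹) = BB ξ κ a d := by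
  ext i j
  rw [BS, BB, Matrix.of_apply, Matrix.of_apply]
  split_ifs with hij
  · rfl
  · congr 1
    have hmem : (i, j) ∈ prs n := by simp [prs, hij]
    have hne : ξ i - ξ j ≠ 0 := sub_ne_zero.2 fun h => hij (hξ h)
    have hne2 : ∏ p ∈ (prs n).erase (i, j), (ξ p.1 - ξ p.2) ≠ 0 := by
      rw [Finset.prod_ne_zero_iff]
      intro p hp
      have : p.1 ≠ p.2 := by
        have := Finset.mem_of_mem_erase hp
        simpa [prs] using this
      exact sub_ne_zero.2 fun h => this (hξ h)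
    have h1 : (∏ p ∈ prs n, (ξ p.1 - ξ p.2)) =
        (ξ i - ξ j) * ∏ p ∈ (prs n).erase (i, j), (ξ p.1 - ξ p.2) :=
      (Finset.mul_prod_erase (prs n) (fun p => ξ p.1 - ξ p.2) hmem).symm
    simp only
    rw [h1, mul_inv, mul_assoc, inv_mul_cancel₀ hne2, mul_one]
    push_cast
    rfl

theorem BS_cd : CD (BS (n := n)) := by
  intro i j
  simp only [BS, Matrix.of_apply]
  by_cases hij : i = j
  · simp only [hij, if_true]
    fun_prop
  · simp only [hij, if_false]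
    have hk : ∀ i, ContDiff ℝ 1 fun θ : Par n => ((θ.2.1 i : ℝ) : ℂ) := fun i =>
      Complex.ofRealCLM.contDiff.comp (by fun_prop)
    have ha : ∀ i, ContDiff ℝ 1 fun θ : Par n => θ.2.2.1 i := fun i => by fun_prop
    refine ContDiff.mul (((ha i).mul (hk j)).sub ((hk i).mul (ha j))) ?_
    refine Complex.ofRealCLM.contDiff.comp ?_
    refine ContDiff.mul (by fun_prop) ?_
    exact contDiff_prod fun p _ => by fun_prop

/-- the invariants of a matrix -/
noncomputable def inv (q : Polynomial ℂ × Polynomial ℂ) (B : Matrix (Fin n) (Fin n) ℂ) : ℝ :=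
  (Matrix.trace (Polynomial.aeval ((1 / 2 : ℂ) • (B + Bᴴ)) q.1 *
    ((1 / (2 * Complex.I) : ℂ) • (B - Bᴴ)) *
    Polynomial.aeval ((1 / 2 : ℂ) • (B + Bᴴ)) q.2 *
    ((1 / (2 * Complex.I) : ℂ) • (B - Bᴴ)))).re

theorem inv_cd (q : Polynomial ℂ × Polynomial ℂ) : ContDiff ℝ 1 fun θ : Par n => inv q (BS θ) := by
  unfold inv
  refine Complex.reCLM.contDiff.comp (CD.trace ?_)
  have h1 : CD fun θ : Par n => (1 / 2 : ℂ) • (BS θ + (BS θ)ᴴ) :=
    CD.smul contDiff_const (BS_cd.add BS_cd.conjTranspose)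
  have h2 : CD fun θ : Par n => (1 / (2 * Complex.I) : ℂ) • (BS θ - (BS θ)ᴴ) :=
    CD.smul contDiff_const (BS_cd.sub BS_cd.conjTranspose)
  exact (((h1.aeval _).mul h2).mul (h1.aeval _)).mul h2

theorem inv_conj (q : Polynomial ℂ × Polynomial ℂ) {V M : Matrix (Fin n) (Fin n) ℂ}
    (h1 : Vᴴ * V = 1) (h2 : V * Vᴴ = 1) : inv q (Vᴴ * M * V) = inv q M := by
  have e1 : (Vᴴ * M * V)ᴴ = Vᴴ * Mᴴ * V := by
    rw [Matrix.conjTranspose_mul, Matrix.conjTranspose_mul, Matrix.conjTranspose_conjTranspose,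
      Matrix.mul_assoc]
  have e2 : (1 / 2 : ℂ) • (Vᴴ * M * V + (Vᴴ * M * V)ᴴ) = Vᴴ * ((1 / 2 : ℂ) • (M + Mᴴ)) * V := by
    rw [e1, Matrix.mul_smul, Matrix.smul_mul, Matrix.mul_add, Matrix.add_mul]
  have e3 : (1 / (2 * Complex.I) : ℂ) • (Vᴴ * M * V - (Vᴴ * M * V)ᴴ) =
      Vᴴ * ((1 / (2 * Complex.I) : ℂ) • (M - Mᴴ)) * V := by
    rw [e1, Matrix.mul_smul, Matrix.smul_mul, Matrix.mul_sub, Matrix.sub_mul]
  rw [inv, inv, e2, e3, aeval_conj _ _ h1 h2, aeval_conj _ _ h1 h2]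
  generalize (Polynomial.aeval ((1 / 2 : ℂ) • (M + Mᴴ))) q.1 = P
  generalize (Polynomial.aeval ((1 / 2 : ℂ) • (M + Mᴴ))) q.2 = Q
  generalize ((1 / (2 * Complex.I) : ℂ) • (M - Mᴴ)) = J
  have e4 : Vᴴ * P * V * (Vᴴ * J * V) * (Vᴴ * Q * V) * (Vᴴ * J * V) =
      Vᴴ * (P * J * Q * J) * V := by
    calc Vᴴ * P * V * (Vᴴ * J * V) * (Vᴴ * Q * V) * (Vᴴ * J * V)
        = Vᴴ * P * (V * Vᴴ) * J * (V * Vᴴ) * Q * (V * Vᴴ) * J * V := by
          simp only [Matrix.mul_assoc]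
      _ = Vᴴ * (P * J * Q * J) * V := by
          rw [h2]; simp only [Matrix.mul_assoc, Matrix.mul_one]
  rw [e4, Matrix.trace_mul_comm, ← Matrix.mul_assoc, h2, Matrix.one_mul]

theorem finrank_par : finrank ℝ (Par 26) = 157 := by
  unfold Par
  simp only [finrank_prod, finrank_pi_fintype, Complex.finrank_real_complex, finrank_self,
    Finset.sum_const, Finset.card_univ, Fintype.card_fin]
  norm_num

/-- the invariants of truncated Toeplitz operators -/
def Bad (q : (Fin 13 × Fin 13) → Polynomial ℂ × Polynomial ℂ) : Set ((Fin 13 × Fin 13) → ℝ) :=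
  range fun θ : Par 26 => fun s => inv (q s) (BS θ)

theorem dense_compl_bad (q : (Fin 13 × Fin 13) → Polynomial ℂ × Polynomial ℂ) :
    Dense (Bad q)ᶜ := by
  apply dense_compl_of_dimH_lt_finrank
  have h1 : ContDiff ℝ 1 fun θ : Par 26 => fun s => inv (q s) (BS θ) := by
    rw [contDiff_pi]
    intro s
    exact inv_cd (q s)
  have h2 := h1.dimH_range_le
  rw [finrank_par] at h2
  refine lt_of_le_of_lt h2 ?_
  rw [finrank_fintype_fun_eq_card]
  simp only [Fintype.card_prod, Fintype.card_fin]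
  norm_num

end Pool.Agent.Q202.TT
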