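import Mathlib

set_option autoImplicit false
set_option linter.unusedSectionVars false

/-! # Small imaginary parts: no orthogonal eigenvectors -/

namespace Pool.Agent.Q202.TT

open Matrix Complex

/-- distinct eigenvalues -/
noncomputable def hh (x : Fin 26) : ℂ := ((x : ℕ) : ℂ)

theorem hh_dist {x y : Fin 26} (h : x ≠ y) : 1 ≤ ‖hh x - hh y‖ := by
  unfold hh
  have h1 : (((x : ℕ) : ℂ) - ((y : ℕ) : ℂ)) = (((x : ℕ) : ℤ) - ((y : ℕ) : ℤ) : ℤ) := by push_cast; rfl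
  rw [h1, Complex.norm_intCast, ← Int.cast_abs]
  have h2 : ((x : ℕ) : ℤ) - ((y : ℕ) : ℤ) ≠ 0 := by
    intro h0
    apply h
    ext
    omega
  exact_mod_cast Int.one_le_abs h2

theorem eig_loc {K : Matrix (Fin 26) (Fin 26) ℂ} {ε : ℝ} (hε : 0 < ε) (hε' : ε ≤ 1 / 1000000)
    (hK : ∀ i j, ‖K i j‖ ≤ 2 * ε) {x : Fin 26 → ℂ} {a : ℂ} (hx : x ≠ 0)
    (h : (Matrix.diagonal hh + I • K) *ᵥ x = a • x) :
    ∃ i, x i ≠ 0 ∧ (∀ l, ‖x l‖ ≤ ‖x i‖) ∧ ∀ l, l ≠ i → ‖x l‖ ≤ 104 * ε * ‖x i‖ := by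
  obtain ⟨i, hi⟩ := Finite.exists_max fun l => ‖x l‖
  have hxi : x i ≠ 0 := by
    intro h0
    apply hx
    funext l
    have := hi l
    rw [h0, norm_zero] at this
    exact norm_le_zero_iff.1 this
  have hpos : 0 < ‖x i‖ := norm_pos_iff.2 hxi
  have hKx : ∀ j, ‖(K *ᵥ x) j‖ ≤ 52 * ε * ‖x i‖ := by
    intro j
    rw [Matrix.mulVec, dotProduct]
    calc ‖∑ l, K j l * x l‖ ≤ ∑ l, ‖K j l * x l‖ := norm_sum_le _ _
      _ ≤ ∑ _l : Fin 26, 2 * ε * ‖x i‖ := by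
          refine Finset.sum_le_sum fun l _ => ?_
          rw [norm_mul]
          exact mul_le_mul (hK j l) (hi l) (norm_nonneg _) (by positivity)
      _ = 52 * ε * ‖x i‖ := by
          rw [Finset.sum_const, Finset.card_univ, Fintype.card_fin, nsmul_eq_mul]
          push_cast; ring
  have hrow : ∀ j, ‖a - hh j‖ * ‖x j‖ ≤ 52 * ε * ‖x i‖ := by
    intro j
    have h1 := congrFun h j
    rw [Matrix.add_mulVec, Pi.add_apply, Matrix.mulVec_diagonal, Matrix.smul_mulVec, Pi.smul_apply,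
      Pi.smul_apply, smul_eq_mul, smul_eq_mul] at h1
    have h2 : (a - hh j) * x j = I * (K *ᵥ x) j := by
      rw [sub_mul, ← h1]; ring
    rw [← norm_mul, h2, norm_mul, Complex.norm_I, one_mul]
    exact hKx j
  refine ⟨i, hxi, hi, fun l hl => ?_⟩
  have h1 : ‖a - hh i‖ ≤ 52 * ε := by
    have := hrow i
    exact le_of_mul_le_mul_right this hpos
  have h2 : 1 / 2 ≤ ‖a - hh l‖ := by
    have h3 := hh_dist hl
    have h4 : ‖hh l - hh i‖ ≤ ‖a - hh i‖ + ‖a - hh l‖ := by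
      have : hh l - hh i = (a - hh i) - (a - hh l) := by ring
      rw [this]
      exact norm_sub_le _ _
    linarith
  have h5 := hrow l
  have h6 : 1 / 2 * ‖x l‖ ≤ ‖a - hh l‖ * ‖x l‖ := mul_le_mul_of_nonneg_right h2 (norm_nonneg _)
  linarith

theorem no_orth {K : Matrix (Fin 26) (Fin 26) ℂ} {ε : ℝ} (hε : 0 < ε) (hε' : ε ≤ 1 / 1000000)
    (hK : ∀ i j, ‖K i j‖ ≤ 2 * ε) (hK' : ∀ i j, ε ≤ ‖K i j‖) (hKH : Kᴴ = K) :
    ¬ ∃ x y : Fin 26 → ℂ, ∃ a b : ℂ, x ≠ 0 ∧ y ≠ 0 ∧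
      (Matrix.diagonal hh + I • K) *ᵥ x = a • x ∧ (Matrix.diagonal hh + I • K) *ᵥ y = b • y ∧
      star x ⬝ᵥ y = 0 := by
  rintro ⟨x, y, a, b, hx, hy, hax, hby, hxy⟩
  obtain ⟨i, hxi, hmx, hsx⟩ := eig_loc hε hε' hK hx hax
  obtain ⟨j, hyj, hmy, hsy⟩ := eig_loc hε hε' hK hy hby
  have hpx : 0 < ‖x i‖ := norm_pos_iff.2 hxi
  have hpy : 0 < ‖y j‖ := norm_pos_iff.2 hyj
  have hpp : 0 < ‖x i‖ * ‖y j‖ := mul_pos hpx hpy
  by_cases hij : i = j
  · subst hij
    have h1 : star x ⬝ᵥ y = star (x i) * y i + ∑ l ∈ Finset.univ.erase i, star (x l) * y l := by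
      rw [dotProduct, ← Finset.add_sum_erase _ _ (Finset.mem_univ i)]
      rfl
    rw [hxy] at h1
    have h2 : ‖star (x i) * y i‖ ≤ ∑ l ∈ Finset.univ.erase i, ‖star (x l) * y l‖ := by
      have h3 : star (x i) * y i = -∑ l ∈ Finset.univ.erase i, star (x l) * y l :=
        eq_neg_of_add_eq_zero_left h1.symm
      rw [h3, norm_neg]
      exact norm_sum_le _ _
    have h3 : ∑ l ∈ Finset.univ.erase i, ‖star (x l) * y l‖ ≤
        ∑ _l ∈ (Finset.univ.erase i : Finset (Fin 26)), 104 * ε * (‖x i‖ * ‖y i‖) := by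
      refine Finset.sum_le_sum fun l hl => ?_
      rw [norm_mul, norm_star, ← mul_assoc]
      exact mul_le_mul (hsx l (Finset.ne_of_mem_erase hl)) (hmy l) (norm_nonneg _) (by positivity)
    rw [Finset.sum_const, Finset.card_erase_of_mem (Finset.mem_univ i), Finset.card_univ,
      Fintype.card_fin, nsmul_eq_mul] at h3
    rw [norm_mul, norm_star] at h2
    push_cast at h3
    nlinarith
  · have h1 : star x ⬝ᵥ (K *ᵥ y) = 0 := by
      have hA : (Matrix.diagonal hh : Matrix (Fin 26) (Fin 26) ℂ)ᴴ = Matrix.diagonal hh := by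
        rw [Matrix.diagonal_conjTranspose]
        congr 1
        funext l
        simp [hh]
      have e1 : star x ⬝ᵥ ((Matrix.diagonal hh + I • K) *ᵥ y) = 0 := by
        rw [hby, dotProduct_smul, hxy, smul_zero]
      have e2 : star x ⬝ᵥ ((Matrix.diagonal hh - I • K) *ᵥ y) = 0 := by
        have e3 : star ((Matrix.diagonal hh + I • K) *ᵥ x) =
            star x ᵥ* (Matrix.diagonal hh - I • K) := by
          rw [Matrix.star_mulVec, Matrix.conjTranspose_add, Matrix.conjTranspose_smul, hA, hKH]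
          congr 1
          rw [Complex.star_def, Complex.conj_I, neg_smul, sub_eq_add_neg]
        rw [Matrix.dotProduct_mulVec, ← e3, hax, star_smul, smul_dotProduct, hxy, smul_zero]
      have e4 : (2 * I) • (star x ⬝ᵥ (K *ᵥ y)) = star x ⬝ᵥ ((Matrix.diagonal hh + I • K) *ᵥ y) -
          star x ⬝ᵥ ((Matrix.diagonal hh - I • K) *ᵥ y) := by
        rw [← dotProduct_sub, ← Matrix.sub_mulVec, ← dotProduct_smul, ← Matrix.smul_mulVec]
        congr 2
        module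
      rw [e1, e2, sub_self, smul_eq_mul] at e4
      exact (mul_eq_zero.1 e4).resolve_left (by simp)
    have h2 : star x ⬝ᵥ (K *ᵥ y) = ∑ p : Fin 26 × Fin 26, star (x p.1) * K p.1 p.2 * y p.2 := by
      rw [dotProduct, Fintype.sum_prod_type]
      refine Finset.sum_congr rfl fun l _ => ?_
      rw [Matrix.mulVec, dotProduct, Finset.mul_sum]
      refine Finset.sum_congr rfl fun m _ => ?_
      rw [Pi.star_apply]; ring
    rw [h1, ← Finset.add_sum_erase _ _ (Finset.mem_univ (i, j))] at h2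
    have h3 : ‖star (x i) * K i j * y j‖ ≤
        ∑ p ∈ Finset.univ.erase (i, j), ‖star (x p.1) * K p.1 p.2 * y p.2‖ := by
      have h4 : star (x i) * K i j * y j =
          -∑ p ∈ Finset.univ.erase (i, j), star (x p.1) * K p.1 p.2 * y p.2 :=
        eq_neg_of_add_eq_zero_left h2.symm
      rw [h4, norm_neg]
      exact norm_sum_le _ _
    have h5 : ∑ p ∈ Finset.univ.erase (i, j), ‖star (x p.1) * K p.1 p.2 * y p.2‖ ≤
        ∑ _p ∈ (Finset.univ.erase (i, j) : Finset (Fin 26 × Fin 26)),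
          104 * ε * (2 * ε) * (‖x i‖ * ‖y j‖) := by
      refine Finset.sum_le_sum fun p hp => ?_
      rw [norm_mul, norm_mul, norm_star]
      have hp' := Finset.ne_of_mem_erase hp
      have hxy' : ‖x p.1‖ * ‖y p.2‖ ≤ 104 * ε * (‖x i‖ * ‖y j‖) := by
        by_cases h1 : p.1 = i
        · have h2 : p.2 ≠ j := fun h => hp' (Prod.ext h1 h)
          calc ‖x p.1‖ * ‖y p.2‖ ≤ ‖x i‖ * (104 * ε * ‖y j‖) :=
                mul_le_mul (hmx _) (hsy _ h2) (norm_nonneg _) (norm_nonneg _)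
            _ = _ := by ring
        · calc ‖x p.1‖ * ‖y p.2‖ ≤ (104 * ε * ‖x i‖) * ‖y j‖ :=
                mul_le_mul (hsx _ h1) (hmy _) (norm_nonneg _) (by positivity)
            _ = _ := by ring
      calc ‖x p.1‖ * ‖K p.1 p.2‖ * ‖y p.2‖ = (‖x p.1‖ * ‖y p.2‖) * ‖K p.1 p.2‖ := by ring
        _ ≤ (104 * ε * (‖x i‖ * ‖y j‖)) * (2 * ε) :=
            mul_le_mul hxy' (hK _ _) (norm_nonneg _) (by positivity)
        _ = _ := by ring
    rw [Finset.sum_const, Finset.card_erase_of_mem (Finset.mem_univ (i, j)), Finset.card_univ,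
      Fintype.card_prod, Fintype.card_fin, nsmul_eq_mul] at h5
    rw [norm_mul, norm_mul, norm_star] at h3
    have h6 : ε * (‖x i‖ * ‖y j‖) ≤ ‖x i‖ * ‖K i j‖ * ‖y j‖ := by
      have := mul_le_mul_of_nonneg_right (hK' i j) hpp.le
      linarith
    have hc : ((26 * 26 - 1 : ℕ) : ℝ) = 675 := by norm_num
    rw [hc] at h5
    have h7 : ε * (‖x i‖ * ‖y j‖) ≤ 675 * (104 * ε * (2 * ε) * (‖x i‖ * ‖y j‖)) :=
      h6.trans (h3.trans h5)
    have h8 : 0 < ε * (‖x i‖ * ‖y j‖) := mul_pos hε hpp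
    have h9 : 675 * (104 * ε * (2 * ε) * (‖x i‖ * ‖y j‖)) =
        (675 * 208 * ε) * (ε * (‖x i‖ * ‖y j‖)) := by ring
    rw [h9] at h7
    have h10 : 675 * 208 * ε ≤ 1 / 2 := by linarith
    have h11 : (675 * 208 * ε) * (ε * (‖x i‖ * ‖y j‖)) ≤
        1 / 2 * (ε * (‖x i‖ * ‖y j‖)) := mul_le_mul_of_nonneg_right h10 h8.le
    linarith

end Pool.Agent.Q202.TT
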