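import Pool.Agent.Q202.TT.Red

set_option autoImplicit false
set_option linter.unusedSectionVars false

/-! # Normal form -/

namespace Pool.Agent.Q202.TT

open Matrix Complex

variable {n : ℕ}

/-- the normal form of a truncated Toeplitz operator -/
noncomputable def BB (ξ κ : Fin n → ℝ) (a d : Fin n → ℂ) : Matrix (Fin n) (Fin n) ℂ :=
  Matrix.of fun i j => if i = j then d i else
    (a i * (κ j : ℂ) - (κ i : ℂ) * a j) * (((ξ i : ℝ) : ℂ) - ((ξ j : ℝ) : ℂ))⁻¹

theorem herm_flip {X V D : Matrix (Fin n) (Fin n) ℂ} (hX : Xᴴ = X) (hD : Dᴴ = D)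
    (h : X * V = V * D) : Vᴴ * X = D * Vᴴ := by
  have h1 : (X * V)ᴴ = Vᴴ * Xᴴ := Matrix.conjTranspose_mul _ _
  have h2 : (V * D)ᴴ = Dᴴ * Vᴴ := Matrix.conjTranspose_mul _ _
  rw [hX] at h1
  rw [hD] at h2
  rw [← h1, ← h2, h]

theorem normal_form {X M : Matrix (Fin n) (Fin n) ℂ} {k u v : Fin n → ℂ} (hX : X.IsHermitian)
    (hXM : X * M - M * X = vecMulVec u (star k) + vecMulVec k (star v))
    (hcyc : ∀ (f : Fin n → ℂ) (c : ℂ), f ≠ 0 → X *ᵥ f = c • f → star k ⬝ᵥ f ≠ 0) :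
    ∃ (V : Matrix (Fin n) (Fin n) ℂ) (ξ κ : Fin n → ℝ) (a d : Fin n → ℂ),
      Vᴴ * V = 1 ∧ V * Vᴴ = 1 ∧ Function.Injective ξ ∧ Vᴴ * M * V = BB ξ κ a d := by
  set U : Matrix (Fin n) (Fin n) ℂ := (hX.eigenvectorUnitary : Matrix (Fin n) (Fin n) ℂ) with hU
  set ξ := hX.eigenvalues with hξ
  have hU1 : Uᴴ * U = 1 := Unitary.coe_star_mul_self hX.eigenvectorUnitary
  have hU2 : U * Uᴴ = 1 := Unitary.coe_mul_star_self hX.eigenvectorUnitary
  have hXU : X * U = U * diagonal (fun i => ((ξ i : ℝ) : ℂ)) := by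
    ext i j
    have h1 := congrFun (hX.mulVec_eigenvectorBasis j) i
    rw [Matrix.mul_diagonal]
    have h2 : (X * U) i j = (X *ᵥ ⇑(hX.eigenvectorBasis j)) i := by
      rw [Matrix.mul_apply, Matrix.mulVec, dotProduct]
      refine Finset.sum_congr rfl fun l _ => ?_
      rw [hU, Matrix.IsHermitian.eigenvectorUnitary_apply]
    rw [h2, h1, hU, Matrix.IsHermitian.eigenvectorUnitary_apply]
    simp [hξ, mul_comm]
  -- eigenvectors
  have heig : ∀ (w : Fin n → ℂ) (r : ℝ), w ≠ 0 → (∀ i, w i ≠ 0 → ξ i = r) →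
      (star k ᵥ* U) ⬝ᵥ w ≠ 0 := by
    intro w r hw hr
    rw [← Matrix.dotProduct_mulVec]
    refine hcyc (U *ᵥ w) (r : ℂ) ?_ ?_
    · intro h0
      apply hw
      have : Uᴴ *ᵥ (U *ᵥ w) = 0 := by rw [h0, Matrix.mulVec_zero]
      rwa [Matrix.mulVec_mulVec, hU1, Matrix.one_mulVec] at this
    · rw [Matrix.mulVec_mulVec, hXU, ← Matrix.mulVec_mulVec, ← Matrix.mulVec_smul]
      congr 1
      ext i
      rw [Matrix.mulVec_diagonal, Pi.smul_apply, smul_eq_mul]
      by_cases h : w i = 0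
      · simp [h]
      · rw [hr i h]
  set c : Fin n → ℂ := star k ᵥ* U with hc
  have hc0 : ∀ i, c i ≠ 0 := by
    intro i h0
    refine heig (Pi.single i 1) (ξ i) ?_ ?_ ?_
    · intro h
      have := congrFun h i
      simp at this
    · intro j hj
      by_cases hij : j = i
      · rw [hij]
      · exact absurd (by simp [hij]) hj
    · rw [dotProduct_single_one]; exact h0
  have hinj : Function.Injective ξ := by
    intro i j hij
    by_contra hne
    refine heig (c j • Pi.single i 1 - c i • Pi.single j 1) (ξ i) ?_ ?_ ?_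
    · intro h
      have := congrFun h i
      simp [hne] at this
      exact hc0 j this
    · intro l hl
      by_cases h1 : l = i
      · rw [h1]
      · by_cases h2 : l = j
        · rw [h2, hij]
        · exact absurd (by simp [h1, h2]) hl
    · rw [dotProduct_sub, dotProduct_smul, dotProduct_smul, dotProduct_single_one,
        dotProduct_single_one, smul_eq_mul, smul_eq_mul]
      ring
  set ω : Fin n → ℂ := fun j => (starRingEnd ℂ) (c j) / ((‖c j‖ : ℝ) : ℂ) with hω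
  have hcn : ∀ j, ((‖c j‖ : ℝ) : ℂ) ≠ 0 := fun j => by
    rw [Ne, Complex.ofReal_eq_zero, norm_eq_zero]; exact hc0 j
  have hω1 : ∀ j, (starRingEnd ℂ) (ω j) * ω j = 1 := by
    intro j
    simp only [hω, map_div₀, Complex.conj_conj, Complex.conj_ofReal]
    rw [div_mul_div_comm, Complex.mul_conj, Complex.normSq_eq_norm_sq]
    push_cast
    rw [← sq]
    exact div_self (pow_ne_zero 2 (hcn j))
  have hωc : ∀ j, c j * ω j = ((‖c j‖ : ℝ) : ℂ) := by
    intro j
    simp only [hω]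
    rw [mul_div_assoc', Complex.mul_conj, Complex.normSq_eq_norm_sq]
    push_cast
    rw [sq, mul_div_assoc, div_self (hcn j), mul_one]
  set V := U * diagonal ω with hV
  have hD1 : (diagonal ω)ᴴ * diagonal ω = 1 := by
    rw [Matrix.diagonal_conjTranspose, Matrix.diagonal_mul_diagonal, ← Matrix.diagonal_one]
    congr 1
    funext j
    exact hω1 j
  have hD2 : diagonal ω * (diagonal ω)ᴴ = 1 := by
    rw [Matrix.diagonal_conjTranspose, Matrix.diagonal_mul_diagonal, ← Matrix.diagonal_one]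
    congr 1
    funext j
    rw [mul_comm]
    exact hω1 j
  have hV1 : Vᴴ * V = 1 := by
    rw [hV, Matrix.conjTranspose_mul]
    calc (diagonal ω)ᴴ * Uᴴ * (U * diagonal ω) = (diagonal ω)ᴴ * (Uᴴ * U) * diagonal ω := by
          simp only [Matrix.mul_assoc]
      _ = 1 := by rw [hU1, Matrix.mul_one, hD1]
  have hV2 : V * Vᴴ = 1 := by
    rw [hV, Matrix.conjTranspose_mul]
    calc U * diagonal ω * ((diagonal ω)ᴴ * Uᴴ) = U * (diagonal ω * (diagonal ω)ᴴ) * Uᴴ := by
          simp only [Matrix.mul_assoc]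
      _ = 1 := by rw [hD2, Matrix.mul_one, hU2]
  have hXV : X * V = V * diagonal (fun i => ((ξ i : ℝ) : ℂ)) := by
    rw [hV, ← Matrix.mul_assoc, hXU, Matrix.mul_assoc, Matrix.mul_assoc,
      Matrix.diagonal_mul_diagonal, Matrix.diagonal_mul_diagonal]
    congr 2
    funext i
    exact mul_comm _ _
  have hVX : Vᴴ * X = diagonal (fun i => ((ξ i : ℝ) : ℂ)) * Vᴴ := by
    refine herm_flip hX.eq ?_ hXV
    rw [Matrix.diagonal_conjTranspose]
    congr 1
    funext i
    simp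
  have hkV : star k ᵥ* V = fun j => ((‖c j‖ : ℝ) : ℂ) := by
    rw [hV, ← Matrix.vecMul_vecMul, ← hc]
    funext j
    rw [Matrix.vecMul_diagonal]
    exact hωc j
  have hVk : Vᴴ *ᵥ k = fun j => ((‖c j‖ : ℝ) : ℂ) := by
    have := congrArg star hkV
    rw [Matrix.star_vecMul, star_star] at this
    rw [this]
    funext j
    simp
  set a : Fin n → ℂ := Vᴴ *ᵥ u with ha
  set b : Fin n → ℂ := star v ᵥ* V with hb
  have key : ∀ i j, (((ξ i : ℝ) : ℂ) - ((ξ j : ℝ) : ℂ)) * (Vᴴ * M * V) i j =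
      a i * ((‖c j‖ : ℝ) : ℂ) + ((‖c i‖ : ℝ) : ℂ) * b j := by
    intro i j
    have h1 : Vᴴ * (X * M - M * X) * V =
        diagonal (fun i => ((ξ i : ℝ) : ℂ)) * (Vᴴ * M * V) -
          (Vᴴ * M * V) * diagonal (fun i => ((ξ i : ℝ) : ℂ)) := by
      calc Vᴴ * (X * M - M * X) * V = (Vᴴ * X) * M * V - Vᴴ * M * (X * V) := by noncomm_ring
        _ = _ := by rw [hVX, hXV]; simp only [Matrix.mul_assoc]
    have h2 : Vᴴ * (X * M - M * X) * V =
        vecMulVec a (fun j => ((‖c j‖ : ℝ) : ℂ)) + vecMulVec (fun j => ((‖c j‖ : ℝ) : ℂ)) b := by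
      rw [hXM, Matrix.mul_add, Matrix.add_mul, Matrix.mul_vecMulVec, Matrix.mul_vecMulVec,
        Matrix.vecMulVec_mul, Matrix.vecMulVec_mul, hkV, hVk]
    have h3 := congrFun (congrFun (h1.symm.trans h2) i) j
    rw [Matrix.sub_apply, Matrix.diagonal_mul, Matrix.mul_diagonal, Matrix.add_apply,
      vecMulVec_apply, vecMulVec_apply] at h3
    rw [← h3]; ring
  have hba : ∀ i, b i = -a i := by
    intro i
    have h1 := key i i
    rw [sub_self, zero_mul] at h1
    have h2 : ((‖c i‖ : ℝ) : ℂ) * (a i + b i) = 0 := by rw [h1]; ring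
    have h3 := (mul_eq_zero.1 h2).resolve_left (hcn i)
    exact eq_neg_of_add_eq_zero_right h3
  refine ⟨V, ξ, fun j => ‖c j‖, a, fun i => (Vᴴ * M * V) i i, hV1, hV2, hinj, ?_⟩
  ext i j
  rw [BB, Matrix.of_apply]
  split_ifs with hij
  · rw [hij]
  · have hne : ((ξ i : ℝ) : ℂ) - ((ξ j : ℝ) : ℂ) ≠ 0 := by
      rw [sub_ne_zero, Ne, Complex.ofReal_inj]
      exact fun h => hij (hinj h)
    rw [eq_mul_inv_iff_mul_eq₀ hne, mul_comm, key i j, hba j]
    ring

end Pool.Agent.Q202.TT
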