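import Mathlib

set_option autoImplicit false
set_option linter.unusedSectionVars false

/-! # From the compressed shift model to a rank two commutator with a Hermitian matrix -/

namespace Pool.Agent.Q202.TT

open Matrix Complex

variable {n : ℕ}

theorem comm_aux (X V M : Matrix (Fin n) (Fin n) ℂ) :
    X * M - M * X = ((X + I • V) * M - M * (X - I • V)) - I • (V * M) - I • (M * V) := by
  rw [Matrix.add_mul, Matrix.mul_sub, Matrix.smul_mul, Matrix.mul_smul]
  abel

open scoped ComplexOrder in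
theorem star_dot_ne {f : Fin n → ℂ} (hf : f ≠ 0) : star f ⬝ᵥ f ≠ 0 := by
  rw [Ne, dotProduct_star_self_eq_zero]
  exact hf

/-- the Cayley transform of the displacement equation -/
theorem cayley {T M : Matrix (Fin n) (Fin n) ℂ} {k u v : Fin n → ℂ}
    (h1 : 1 - T * Tᴴ = vecMulVec k (star k))
    (h2 : ∀ μ : ℂ, ∀ x : Fin n → ℂ, x ≠ 0 → T *ᵥ x = μ • x → ‖μ‖ < 1)
    (h3 : M - T * M * Tᴴ = vecMulVec u (star k) + vecMulVec k (star v)) :
    ∃ X : Matrix (Fin n) (Fin n) ℂ, ∃ k' u' v' : Fin n → ℂ, X.IsHermitian ∧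
      X * M - M * X = vecMulVec u' (star k') + vecMulVec k' (star v') ∧
      ∀ (f : Fin n → ℂ) (c : ℂ), f ≠ 0 → X *ᵥ f = c • f → star k' ⬝ᵥ f ≠ 0 := by
  have hdet : IsUnit (1 - T).det := by
    rw [isUnit_iff_ne_zero]
    intro h0
    obtain ⟨x, hx, hx0⟩ := Matrix.exists_mulVec_eq_zero_iff.2 h0
    rw [Matrix.sub_mulVec, Matrix.one_mulVec, sub_eq_zero] at hx0
    have := h2 1 x hx (by rw [one_smul]; exact hx0.symm)
    simp at this
  set S := (1 - T)⁻¹ with hS
  have s1 : S * (1 - T) = 1 := Matrix.nonsing_inv_mul _ hdet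
  have s2 : (1 - T) * S = 1 := Matrix.mul_nonsing_inv _ hdet
  have s3 : (1 - Tᴴ) * Sᴴ = 1 := by
    have := congrArg Matrix.conjTranspose s1
    rw [Matrix.conjTranspose_mul, Matrix.conjTranspose_sub, Matrix.conjTranspose_one] at this
    exact this
  have s4 : Sᴴ * (1 - Tᴴ) = 1 := by
    have := congrArg Matrix.conjTranspose s2
    rw [Matrix.conjTranspose_mul, Matrix.conjTranspose_sub, Matrix.conjTranspose_one] at this
    exact this
  set A := I • (S * (1 + T)) with hA
  have hAH : Aᴴ = -I • ((1 + Tᴴ) * Sᴴ) := by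
    rw [hA, Matrix.conjTranspose_smul, Matrix.conjTranspose_mul, Matrix.conjTranspose_add,
      Matrix.conjTranspose_one]
    congr 1
    simp
  -- `S (1+T) = (1+T) S`
  have comm1 : S * (1 + T) = (1 + T) * S := by
    have e1 : (1 + T) * (1 - T) = (1 - T) * (1 + T) := by noncomm_ring
    calc S * (1 + T) = S * (1 + T) * ((1 - T) * S) := by rw [s2, Matrix.mul_one]
      _ = S * ((1 + T) * (1 - T)) * S := by noncomm_ring
      _ = S * ((1 - T) * (1 + T)) * S := by rw [e1]
      _ = (S * (1 - T)) * (1 + T) * S := by noncomm_ring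
      _ = (1 + T) * S := by rw [s1, Matrix.one_mul]
  have comm2 : (1 + Tᴴ) * Sᴴ = Sᴴ * (1 + Tᴴ) := by
    have := congrArg Matrix.conjTranspose comm1
    rw [Matrix.conjTranspose_mul, Matrix.conjTranspose_mul, Matrix.conjTranspose_add,
      Matrix.conjTranspose_one] at this
    exact this
  set k' := S *ᵥ k with hk'
  have hvec : ∀ a b : Fin n → ℂ, S * vecMulVec a (star b) * Sᴴ =
      vecMulVec (S *ᵥ a) (star (S *ᵥ b)) := by
    intro a b
    rw [Matrix.mul_vecMulVec, Matrix.vecMulVec_mul, Matrix.star_mulVec]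
  have hAA : A - Aᴴ = (2 * I) • vecMulVec k' (star k') := by
    rw [hk', ← hvec, ← h1, hAH, hA]
    have e1 : S * (1 + T) = S * ((1 + T) * (1 - Tᴴ)) * Sᴴ := by
      calc S * (1 + T) = S * (1 + T) * ((1 - Tᴴ) * Sᴴ) := by rw [s3, Matrix.mul_one]
        _ = _ := by noncomm_ring
    have e2 : (1 + Tᴴ) * Sᴴ = S * ((1 - T) * (1 + Tᴴ)) * Sᴴ := by
      calc (1 + Tᴴ) * Sᴴ = (S * (1 - T)) * (1 + Tᴴ) * Sᴴ := by rw [s1, Matrix.one_mul]
        _ = _ := by noncomm_ring
    rw [e1, e2, neg_smul, sub_neg_eq_add, ← smul_add, ← Matrix.add_mul, ← Matrix.mul_add]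
    have e3 : (1 + T) * (1 - Tᴴ) + (1 - T) * (1 + Tᴴ) = (2 : ℂ) • (1 - T * Tᴴ) := by
      rw [two_smul]
      noncomm_ring
    rw [e3, Matrix.mul_smul, Matrix.smul_mul, smul_smul, mul_comm]
  set X := (1 / 2 : ℂ) • (A + Aᴴ) with hX
  have hXA : A = X + I • vecMulVec k' (star k') := by
    have : A = X + (1 / 2 : ℂ) • (A - Aᴴ) := by rw [hX]; module
    rw [hAA, smul_smul] at this
    rw [show I = 1 / 2 * (2 * I) by ring]
    exact this
  have hXAH : Aᴴ = X - I • vecMulVec k' (star k') := by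
    have : Aᴴ = X - (1 / 2 : ℂ) • (A - Aᴴ) := by rw [hX]; module
    rw [hAA, smul_smul] at this
    rw [show I = 1 / 2 * (2 * I) by ring]
    exact this
  have hXH : X.IsHermitian := by
    rw [Matrix.IsHermitian, hX, Matrix.conjTranspose_smul, Matrix.conjTranspose_add,
      Matrix.conjTranspose_conjTranspose, add_comm]
    congr 1
    simp
  have hAM : A * M - M * Aᴴ = (2 * I) • (vecMulVec (S *ᵥ u) (star k') +
      vecMulVec k' (star (S *ᵥ v))) := by
    rw [hk', ← hvec, ← hvec, ← Matrix.add_mul, ← Matrix.mul_add, ← h3, hAH, hA]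
    have e1 : I • (S * (1 + T)) * M = I • (S * ((1 + T) * M * (1 - Tᴴ)) * Sᴴ) := by
      rw [Matrix.smul_mul]
      congr 1
      calc S * (1 + T) * M = S * (1 + T) * M * ((1 - Tᴴ) * Sᴴ) := by rw [s3, Matrix.mul_one]
        _ = _ := by noncomm_ring
    have e2 : M * -I • ((1 + Tᴴ) * Sᴴ) = -I • (S * ((1 - T) * M * (1 + Tᴴ)) * Sᴴ) := by
      rw [Matrix.mul_smul]
      congr 1
      calc M * ((1 + Tᴴ) * Sᴴ) = (S * (1 - T)) * M * ((1 + Tᴴ) * Sᴴ) := by
            rw [s1, Matrix.one_mul]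
        _ = _ := by noncomm_ring
    rw [e1, e2, neg_smul, sub_neg_eq_add, ← smul_add, ← Matrix.add_mul, ← Matrix.mul_add]
    have e3 : (1 + T) * M * (1 - Tᴴ) + (1 - T) * M * (1 + Tᴴ) = (2 : ℂ) • (M - T * M * Tᴴ) := by
      rw [two_smul]
      noncomm_ring
    rw [e3, Matrix.mul_smul, Matrix.smul_mul, smul_smul, mul_comm]
  refine ⟨X, k', (2 * I) • (S *ᵥ u) - I • (M *ᵥ k'),
    star ((2 * I) • star (S *ᵥ v) - I • star (Mᴴ *ᵥ k')), hXH, ?_, ?_⟩
  · have e1 : X * M - M * X = (A * M - M * Aᴴ) - I • (vecMulVec k' (star k') * M) -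
        I • (M * vecMulVec k' (star k')) := by
      have := comm_aux X (vecMulVec k' (star k')) M
      rw [← hXA, ← hXAH] at this
      exact this
    rw [e1, hAM, star_star]
    have e2 : vecMulVec k' (star k') * M = vecMulVec k' (star (Mᴴ *ᵥ k')) := by
      rw [Matrix.vecMulVec_mul, Matrix.star_mulVec Mᴴ k', Matrix.conjTranspose_conjTranspose]
    have e3 : M * vecMulVec k' (star k') = vecMulVec (M *ᵥ k') (star k') :=
      Matrix.mul_vecMulVec _ _ _
    rw [e2, e3]
    ext i j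
    simp only [Matrix.sub_apply, Matrix.add_apply, Matrix.smul_apply, vecMulVec_apply,
      smul_eq_mul, Pi.sub_apply, Pi.smul_apply]
    ring
  · intro f c hf hc h0
    -- `A f = c f`
    have hAf : A *ᵥ f = c • f := by
      rw [hXA, Matrix.add_mulVec, hc, Matrix.smul_mulVec, Matrix.vecMulVec_mulVec, h0]
      simp
    -- `c` is real
    have hcr : star c = c := by
      have e1 : star f ⬝ᵥ (X *ᵥ f) = c * (star f ⬝ᵥ f) := by
        rw [hc, dotProduct_smul, smul_eq_mul]
      have e2 : star f ⬝ᵥ (X *ᵥ f) = star c * (star f ⬝ᵥ f) := by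
        have e3 : star f ⬝ᵥ (X *ᵥ f) = star (star f ⬝ᵥ (X *ᵥ f)) := by
          conv_lhs => rw [Matrix.star_dotProduct, Matrix.star_mulVec, hXH.eq,
            ← Matrix.dotProduct_mulVec]
        rw [e3, e1, star_mul', ← Matrix.star_dotProduct]
      have hff : star f ⬝ᵥ f ≠ 0 := star_dot_ne hf
      exact mul_right_cancel₀ hff (e2.symm.trans e1)
    have hci : c.im = 0 := by
      have := congrArg Complex.im hcr
      simp only [Complex.star_def, Complex.conj_im] at this
      linarith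
    have hne : c + I ≠ 0 := by
      intro h
      have := congrArg Complex.im h
      simp [hci] at this
    have e4 : I • (f + T *ᵥ f) = c • (f - T *ᵥ f) := by
      have e5 : (1 - T) *ᵥ (A *ᵥ f) = I • (f + T *ᵥ f) := by
        rw [Matrix.mulVec_mulVec, hA, Matrix.mul_smul, ← Matrix.mul_assoc, s2, Matrix.one_mul,
          Matrix.smul_mulVec, Matrix.add_mulVec, Matrix.one_mulVec]
      rw [← e5, hAf, Matrix.mulVec_smul, Matrix.sub_mulVec, Matrix.one_mulVec]
    have e6 : T *ᵥ f = ((c - I) / (c + I)) • f := by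
      have e7 : (c + I) • (T *ᵥ f) = (c - I) • f := by
        have : (c + I) • (T *ᵥ f) - (c - I) • f = I • (f + T *ᵥ f) - c • (f - T *ᵥ f) := by
          module
        rw [e4, sub_self] at this
        exact sub_eq_zero.1 this
      rw [div_eq_inv_mul, mul_smul, ← e7, smul_smul, inv_mul_cancel₀ hne, one_smul]
    have e8 := h2 _ f hf e6
    have e9 : ‖c - I‖ = ‖c + I‖ := by
      rw [← Complex.norm_conj (c - I)]
      congr 1
      rw [map_sub, Complex.conj_I, sub_neg_eq_add]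
      congr 1
    rw [norm_div, e9, div_self (norm_ne_zero_iff.2 hne)] at e8
    exact lt_irrefl _ e8

end Pool.Agent.Q202.TT
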